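import Pool.Agent.Helper513.ZgT0.Assembly

/-!
# A von Neumann regular ring whose left and right Ziegler spectra are far from homeomorphic

The definitions of the Ziegler spectra (`PPFormula`, `IsPureInjective`, `IsIndecomposable`,
`IndecPureInj`, `LeftZg`, `RightZg`, the topology) are those of
`Pool/Agent/Helper513/ZgT0/Defs.lean`, the definitions of the starting result `NotHomeomorphic`,
and the ring is the ring constructed there.
-/

set_option autoImplicit false

open Pool.Agent.Helper513.ZgT0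

namespace Pool.Agent.Results.MP_08e64a_al.NoDenseMap

/-- `p` is a generic point: it lies in every nonempty open set. -/
def Generic {X : Type 1} [TopologicalSpace X] (p : X) : Prop :=
  ∀ U : Set X, IsOpen U → U.Nonempty → p ∈ U

/-- Every nonempty basic open set contains the set of the modules which are not killed by some
nonzero element of the ring. -/
theorem exists_ann {S : Type} [Ring S] (hS : ∀ a : S, ∃ x : S, a * x * a = a) {n : ℕ}
    (φ ψ : PPFormula S n) (y : LeftZg S) (hy : y ∈ basic φ ψ) :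
    ∃ a : S, a ≠ 0 ∧ ∀ N0 : IndecPureInj S, (∃ w : N0.carrier, a • w ≠ 0) →
      cls N0 ∈ basic φ ψ := by
  obtain ⟨N, -, hN⟩ := hy
  rw [Set.not_subset] at hN
  obtain ⟨x, hx1, hx2⟩ := hN
  obtain ⟨c, hc⟩ := qe hS φ
  obtain ⟨d, hd⟩ := qe hS ψ
  rw [hc] at hx1
  rw [hd] at hx2
  have hx2' : ¬ ∀ j, ∑ i, d i j • x i = 0 := hx2
  push Not at hx2'
  obtain ⟨j, hj⟩ := hx2'
  obtain ⟨s, hs1, hs2⟩ := exists_vec hS φ.k N.carrier n c (fun i => d i j) x hx1 hj
  refine ⟨_, hs2, fun N0 hf => ?_⟩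
  obtain ⟨w, hw⟩ := hf
  refine ⟨N0, rfl, ?_⟩
  rw [Set.not_subset]
  refine ⟨fun i => s i • w, ?_, ?_⟩
  · rw [hc]
    intro l
    have := congrArg (fun t => t • w) (hs1 l)
    simp only [Finset.sum_smul, mul_smul, zero_smul] at this
    exact this
  · rw [hd]
    intro h
    have := h j
    simp only [Finset.sum_smul, mul_smul] at hw
    exact hw this

/-- The same for all nonempty open sets if the ring is prime. -/
theorem exists_ann_open {S : Type} [Ring S] (hS : ∀ a : S, ∃ x : S, a * x * a = a)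
    (h1 : (1 : S) ≠ 0) (hp : ∀ a b : S, a ≠ 0 → b ≠ 0 → ∃ r : S, a * r * b ≠ 0)
    (U : Set (LeftZg S)) (hU : IsOpen U) (y : LeftZg S) (hy : y ∈ U) :
    ∃ a : S, a ≠ 0 ∧ ∀ N0 : IndecPureInj S, (∃ w : N0.carrier, a • w ≠ 0) → cls N0 ∈ U := by
  have hU' : TopologicalSpace.GenerateOpen
    {U | ∃ (n : ℕ) (φ ψ : PPFormula S n), U = basic φ ψ} U := hU
  clear hU
  induction hU' with
  | basic s hs =>
    obtain ⟨n, φ, ψ, rfl⟩ := hs
    exact exists_ann hS φ ψ y hy
  | univ => exact ⟨1, h1, fun _ _ => trivial⟩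
  | inter s t _ _ ihs iht =>
    obtain ⟨a, ha, hs⟩ := ihs hy.1
    obtain ⟨b, hb, ht⟩ := iht hy.2
    obtain ⟨r, hr⟩ := hp a b ha hb
    refine ⟨a * r * b, hr, fun N0 hw => ?_⟩
    obtain ⟨w, hw⟩ := hw
    rw [mul_smul, mul_smul] at hw
    refine ⟨hs N0 ⟨_, hw⟩, ht N0 ⟨w, fun h0 => hw ?_⟩⟩
    rw [h0, smul_zero, smul_zero]
  | sUnion K _ ih =>
    obtain ⟨t, ht, hyt⟩ := hy
    obtain ⟨a, ha, hs⟩ := ih t ht hyt
    exact ⟨a, ha, fun N0 hw => ⟨t, ht, hs N0 hw⟩⟩

/-- A von Neumann regular ring with a faithful indecomposable pure-injective module is prime. -/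
theorem prime_of {S : Type} [Ring S] (hS : ∀ a : S, ∃ x : S, a * x * a = a) (N : IndecPureInj S)
    (hf : ∀ a : S, a ≠ 0 → ∃ w : N.carrier, a • w ≠ 0) :
    ∀ a b : S, a ≠ 0 → b ≠ 0 → ∃ r : S, a * r * b ≠ 0 := by
  intro a b ha hb
  by_contra hcon
  push Not at hcon
  obtain ⟨x, hx⟩ := hf b hb
  obtain ⟨y, hy⟩ := hf a ha
  obtain ⟨s, t, hst, hne⟩ := uniform_of_injective (injective_of_pinj hS N.pinj) N.indec
    (b • x) (a • y) hx hy
  obtain ⟨c, hc⟩ := hS (t * a)
  apply hne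
  have e1 : s • b • x = (t * a * c) • s • b • x := by
    rw [hst, ← mul_smul t a y, ← mul_smul, hc]
  have e2 : (t * a * c) • s • b • x = t • (a * (c * s) * b) • x := by
    rw [← mul_smul, ← mul_smul, ← mul_smul]
    congr 1
    noncomm_ring
  rw [e1, e2, hcon, zero_smul, smul_zero]

/-- **Full answer to Q1 in a stronger form.** There is a von Neumann regular prime ring `R` whose
left Ziegler spectrum has a generic point, while its right Ziegler spectrum is irreducible (any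
two nonempty open sets meet) and has no generic point; no continuous map from a nonempty open
subset of the Kolmogorov quotient of the left Ziegler spectrum to a nonempty open subset of that of
the right one has dense range. In particular the two quotients are not homeomorphic. -/
theorem result : ∃ (R : Type) (_ : Ring R),
    (∀ a : R, ∃ x : R, a * x * a = a) ∧
    (∀ a b : R, a ≠ 0 → b ≠ 0 → ∃ r : R, a * r * b ≠ 0) ∧
    (∃ N : IndecPureInj R, ∀ a : R, a ≠ 0 → ∃ w : N.carrier, a • w ≠ 0) ∧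
    (∀ N : IndecPureInj Rᵐᵒᵖ, ∃ a : Rᵐᵒᵖ, a ≠ 0 ∧ ∀ w : N.carrier, a • w = 0) ∧
    (∃ p : LeftZg R, Generic p) ∧
    (∀ U V : Set (RightZg R), IsOpen U → IsOpen V → U.Nonempty → V.Nonempty → (U ∩ V).Nonempty) ∧
    (∀ p : RightZg R, ¬ Generic p) ∧
    (∀ (U : Set (SeparationQuotient (LeftZg R))) (V : Set (SeparationQuotient (RightZg R))),
      IsOpen U → IsOpen V → U.Nonempty → V.Nonempty →
        ∀ f : U → V, Continuous f → ¬ DenseRange f) ∧
    IsEmpty (SeparationQuotient (RightZg R) ≃ₜ SeparationQuotient (LeftZg R)) := by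
  obtain ⟨W, _, _, 𝔅, I, hS, hHit, hI, hN, hClo, hne⟩ := exists_sys
  have hreg := RR_regular hS
  obtain ⟨I₀, hI1, hI2, hI3⟩ := RR_left hS
  obtain ⟨N0, -, x0, hx0⟩ := exists_hull I₀ hI1 hI2
  have hf : ∀ a : RR hS, a ≠ 0 → ∃ w : N0.carrier, a • w ≠ 0 := by
    intro a ha
    obtain ⟨s, hs⟩ := hI3 a ha
    refine ⟨s • x0, fun h0 => hs ?_⟩
    rw [← mul_smul] at h0
    exact (hx0 _).1 h0
  have hgen : Generic (cls N0) := fun U hU hne =>
    mem_open_of_faithful hreg N0 hf U hU hne.some hne.some_mem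
  have hprime := prime_of hreg N0 hf
  have h10 : (1 : RR hS) ≠ 0 := by
    intro h
    apply hI1
    rw [h]
    exact I₀.zero_mem
  have h10R : (1 : (RR hS)ᵐᵒᵖ) ≠ 0 := fun h => h10 (congrArg MulOpposite.unop h)
  have hregR : ∀ a : (RR hS)ᵐᵒᵖ, ∃ x : (RR hS)ᵐᵒᵖ, a * x * a = a := by
    intro a
    obtain ⟨x, hx⟩ := hreg a.unop
    refine ⟨MulOpposite.op x, MulOpposite.unop_injective ?_⟩
    rw [MulOpposite.unop_mul, MulOpposite.unop_mul, MulOpposite.unop_op, ← mul_assoc]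
    exact hx
  have hprimeR : ∀ a b : (RR hS)ᵐᵒᵖ, a ≠ 0 → b ≠ 0 → ∃ r : (RR hS)ᵐᵒᵖ, a * r * b ≠ 0 := by
    intro a b ha hb
    obtain ⟨r, hr⟩ := hprime b.unop a.unop (fun h => hb (MulOpposite.unop_injective h))
      (fun h => ha (MulOpposite.unop_injective h))
    refine ⟨MulOpposite.op r, fun h => hr ?_⟩
    have h2 := congrArg MulOpposite.unop h
    rw [MulOpposite.unop_mul, MulOpposite.unop_mul, MulOpposite.unop_op, ← mul_assoc] at h2
    exact h2
  have hnoR : ∀ N : IndecPureInj (RR hS)ᵐᵒᵖ,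
      ∃ a : (RR hS)ᵐᵒᵖ, a ≠ 0 ∧ ∀ w : N.carrier, a • w = 0 := by
    intro N
    by_contra hcon
    push Not at hcon
    exact no_right hS hHit hI hN hClo N.carrier
      (uniform_of_injective (injective_of_pinj hregR N.pinj) N.indec) hcon
  have hirr : ∀ U V : Set (RightZg (RR hS)), IsOpen U → IsOpen V → U.Nonempty → V.Nonempty →
      (U ∩ V).Nonempty := by
    rintro U V hU hV ⟨u, hu⟩ ⟨v, hv⟩
    obtain ⟨a, ha, hUa⟩ := exists_ann_open hregR h10R hprimeR U hU u hu
    obtain ⟨b, hb, hVb⟩ := exists_ann_open hregR h10R hprimeR V hV v hv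
    obtain ⟨r, hr⟩ := hprimeR a b ha hb
    obtain ⟨N, w, hw⟩ := basic_ann_nonempty hregR _ hr
    rw [mul_smul, mul_smul] at hw
    refine ⟨cls N, hUa N ⟨_, hw⟩, hVb N ⟨w, fun h0 => hw ?_⟩⟩
    rw [h0, smul_zero, smul_zero]
  have hgenR : ∀ p : RightZg (RR hS), ¬ Generic p := by
    intro p hp
    obtain ⟨N, rfl⟩ := Quotient.exists_rep p
    obtain ⟨a, ha, haN⟩ := hnoR N
    obtain ⟨N', hN'⟩ := basic_ann_nonempty hregR a ha
    have hop : IsOpen (basic (ppTop (RR hS)ᵐᵒᵖ) (ppAnn a)) :=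
      TopologicalSpace.isOpen_generateFrom_of_mem ⟨1, _, _, rfl⟩
    have h2 := hp _ hop ⟨cls N', (cls_mem_basic_ann a N').2 hN'⟩
    obtain ⟨x, hx⟩ := (cls_mem_basic_ann a N).1 h2
    exact hx (haN x)
  have hgenQ : ∀ O : Set (SeparationQuotient (LeftZg (RR hS))), IsOpen O → O.Nonempty →
      SeparationQuotient.mk (cls N0) ∈ O := by
    rintro O hO ⟨t, ht⟩
    obtain ⟨v, hv⟩ := SeparationQuotient.surjective_mk t
    exact hgen _ (hO.preimage SeparationQuotient.continuous_mk) ⟨v, by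
      rw [Set.mem_preimage, hv]
      exact ht⟩
  have hcont : ∀ (U : Set (SeparationQuotient (LeftZg (RR hS))))
      (V : Set (SeparationQuotient (RightZg (RR hS)))), IsOpen U → IsOpen V → U.Nonempty →
      V.Nonempty → ∀ f : U → V, Continuous f → ¬ DenseRange f := by
    intro U V hU hV hUne hVne f hfc hd
    obtain ⟨v, hv⟩ := hVne
    obtain ⟨v', rfl⟩ := SeparationQuotient.surjective_mk v
    obtain ⟨q, hq⟩ := SeparationQuotient.surjective_mk
      (f ⟨SeparationQuotient.mk (cls N0), hgenQ U hU hUne⟩).1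
    apply hgenR q
    intro O hO hne
    have hopen : IsOpen (SeparationQuotient.mk '' O) := SeparationQuotient.isOpenMap_mk O hO
    obtain ⟨z, hzV, hzO⟩ := hirr (SeparationQuotient.mk ⁻¹' V) O
      (hV.preimage SeparationQuotient.continuous_mk) hO ⟨v', hv⟩ hne
    have hopen2 : IsOpen (Subtype.val ⁻¹' (SeparationQuotient.mk '' O) : Set V) :=
      hopen.preimage continuous_subtype_val
    obtain ⟨t, ht⟩ := hd.exists_mem_open hopen2 ⟨⟨SeparationQuotient.mk z, hzV⟩, ⟨z, hzO, rfl⟩⟩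
    have hopen3 : IsOpen (Subtype.val '' (f ⁻¹' (Subtype.val ⁻¹' (SeparationQuotient.mk '' O)))) :=
      hU.isOpenMap_subtype_val _ (hopen2.preimage hfc)
    obtain ⟨t', ht', ht'2⟩ := hgenQ _ hopen3 ⟨t, ⟨t, ht, rfl⟩⟩
    have e : t' = ⟨SeparationQuotient.mk (cls N0), hgenQ U hU hUne⟩ := Subtype.ext ht'2
    rw [e, Set.mem_preimage, Set.mem_preimage, ← hq] at ht'
    have h4 : q ∈ SeparationQuotient.mk ⁻¹' (SeparationQuotient.mk '' O) := ht'
    rwa [SeparationQuotient.preimage_image_mk_open hO] at h4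
  refine ⟨RR hS, inferInstance, hreg, hprime, ⟨N0, hf⟩, hnoR, ⟨cls N0, hgen⟩, hirr, hgenR, hcont,
    ⟨fun h => ?_⟩⟩
  obtain ⟨v, -⟩ : ∃ v : RightZg (RR hS), v ∈ (Set.univ : Set (RightZg (RR hS))) := by
    obtain ⟨N', -⟩ := basic_ann_nonempty hregR 1 h10R
    exact ⟨cls N', trivial⟩
  refine hcont Set.univ Set.univ isOpen_univ isOpen_univ ⟨SeparationQuotient.mk (cls N0), trivial⟩
    ⟨SeparationQuotient.mk v, trivial⟩ (fun x => ⟨h.symm x.1, trivial⟩)
    ((h.symm.continuous.comp continuous_subtype_val).subtype_mk _) ?_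
  refine Function.Surjective.denseRange ?_
  rintro ⟨y, -⟩
  exact ⟨⟨h y, trivial⟩, Subtype.ext (h.symm_apply_apply y)⟩

end Pool.Agent.Results.MP_08e64a_al.NoDenseMap
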